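import Pool.Agent.N990.RU.Stm

/-!
# Project RU, leaf AVG: a lower bound of a measure on the circle (copy of RT/AVG by helper767)
-/

set_option autoImplicit false

open MeasureTheory

namespace Pool.Agent.N78.RU

open Pool.Agent.N990.RU

lemma exists_rep (g : Ang) : ∃ s : ℝ, |s| ≤ Real.pi ∧ (s : Ang) = g :=
  ⟨Real.Angle.toReal g, Real.Angle.abs_toReal_le_pi g, Real.Angle.coe_toReal g⟩

/-- the average of the measures of the translates -/
lemma ha_le (ν : Measure Ang) [IsProbabilityMeasure ν] (B : Set Ang) (hB : MeasurableSet B)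
    (S : ℝ) (hS : ∀ g : Ang, ν.real {z | z + g ∈ B} ≤ S) : ha.real B ≤ S := by
  have hS0 : 0 ≤ S := le_trans measureReal_nonneg (hS 0)
  have hm : MeasurableSet {p : Ang × Ang | p.2 + p.1 ∈ B} :=
    (measurable_snd.add measurable_fst) hB
  have h1 : (ha.prod ν) {p : Ang × Ang | p.2 + p.1 ∈ B} = ∫⁻ g, ν {z | z + g ∈ B} ∂ha := by
    rw [Measure.prod_apply hm]
    rfl
  have h2 : (ha.prod ν) {p : Ang × Ang | p.2 + p.1 ∈ B} = ha B := by
    rw [Measure.prod_apply_symm hm]
    have h3 : ∀ z : Ang, ha ((fun x => (x, z)) ⁻¹' {p : Ang × Ang | p.2 + p.1 ∈ B}) = ha B := by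
      intro z
      exact measure_preimage_add ha z B
    simp only [h3, lintegral_const, measure_univ, mul_one]
  have h4 : ha B ≤ ENNReal.ofReal S := by
    rw [← h2, h1]
    calc ∫⁻ g, ν {z | z + g ∈ B} ∂ha ≤ ∫⁻ _, ENNReal.ofReal S ∂ha := by
          refine lintegral_mono fun g => ?_
          rw [← ofReal_measureReal]
          exact ENNReal.ofReal_le_ofReal (hS g)
      _ = ENNReal.ofReal S := by simp
  rw [Measure.real]
  exact ENNReal.toReal_le_of_le_ofReal hS0 h4

theorem t_avg : S_AVG := by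
  intro ν _ c hc H B hB
  obtain ⟨K, hK⟩ : ∃ K, K = Real.exp (-(c * Real.pi ^ 2)) := ⟨_, rfl⟩
  have hK0 : 0 < K := by rw [hK]; exact Real.exp_pos _
  obtain ⟨S, hSd⟩ : ∃ S, S = ⨆ g : Ang, ν.real {z | z + g ∈ B} := ⟨_, rfl⟩
  have hbdd : BddAbove (Set.range fun g : Ang => ν.real {z | z + g ∈ B}) := by
    refine ⟨1, ?_⟩
    rintro _ ⟨g, rfl⟩
    exact measureReal_le_one
  have hS : ∀ g : Ang, ν.real {z | z + g ∈ B} ≤ S := fun g => by
    rw [hSd]
    exact le_ciSup hbdd g
  have hS0 : 0 ≤ S := le_trans measureReal_nonneg (hS 0)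
  have hν0 : 0 ≤ ν.real B := measureReal_nonneg
  have hmain : ∀ g : Ang, K * ν.real {z | z + g ∈ B} ^ 2 ≤ S * ν.real B := by
    intro g
    obtain ⟨s, hs, hsg⟩ := exists_rep (-g)
    have hm : MeasurableSet {z : Ang | z + g ∈ B} := (measurable_id.add_const g) hB
    have h1 := H {z | z + g ∈ B} hm s
    have h2 : {z : Ang | z + (s : Ang) ∈ {z : Ang | z + g ∈ B}} = B := by
      ext z
      simp only [Set.mem_setOf_eq, hsg, neg_add_cancel_right]
    have h3 : ν.real {z : Ang | z - (s : Ang) ∈ {z : Ang | z + g ∈ B}} ≤ S := by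
      have h4 : {z : Ang | z - (s : Ang) ∈ {z : Ang | z + g ∈ B}} = {z : Ang | z + (g + g) ∈ B} := by
        ext z
        simp only [Set.mem_setOf_eq, hsg, sub_neg_eq_add, add_assoc]
      rw [h4]
      exact hS _
    rw [h2] at h1
    have h5 : K ≤ Real.exp (-(c * s ^ 2)) := by
      rw [hK]
      apply Real.exp_le_exp.2
      have h6 : s ^ 2 ≤ Real.pi ^ 2 := sq_le_sq' (by linarith [(abs_le.1 hs).1]) (abs_le.1 hs).2
      have := mul_le_mul_of_nonneg_left h6 hc
      linarith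
    calc K * ν.real {z | z + g ∈ B} ^ 2 ≤ Real.exp (-(c * s ^ 2)) * ν.real {z | z + g ∈ B} ^ 2 :=
          mul_le_mul_of_nonneg_right h5 (sq_nonneg _)
      _ ≤ _ := h1
      _ ≤ S * ν.real B := mul_le_mul_of_nonneg_right h3 hν0
  have h1 : S ≤ Real.sqrt (S * ν.real B / K) := by
    rw [hSd]
    refine ciSup_le fun g => ?_
    rw [← hSd]
    apply Real.le_sqrt_of_sq_le
    rw [le_div_iff₀ hK0]
    linarith [hmain g]
  have h2 : S ^ 2 ≤ S * ν.real B / K := by
    have h3 : 0 ≤ S * ν.real B / K := by positivity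
    calc S ^ 2 ≤ Real.sqrt (S * ν.real B / K) ^ 2 := pow_le_pow_left₀ hS0 h1 2
      _ = _ := Real.sq_sqrt h3
  rw [le_div_iff₀ hK0] at h2
  have h3 : K * S ≤ ν.real B := by
    rcases hS0.eq_or_lt with h | h
    · rw [← h, mul_zero]
      exact hν0
    · have h4 : S * (K * S) ≤ S * ν.real B := by nlinarith
      exact le_of_mul_le_mul_left h4 h
  rw [← hK]
  exact (mul_le_mul_of_nonneg_left (ha_le ν B hB S hS) hK0.le).trans h3

end Pool.Agent.N78.RU
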